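import Pool.Agent.Helper77.OF4.St

/-!
# Project OF4 (MP_7a9ddc_co), module SP: a face which visits a vertex twice
-/

set_option autoImplicit false

namespace Pool.Agent.Helper40.OF4.SP

open Equiv Equiv.Perm Pool.Agent.Helper35.PM Pool.Agent.Helper77.HY Pool.Agent.Helper77.OF4

theorem main (hTwo : Pool.Agent.Helper64.OF.StTwo) : StSp := by
  classical
  intro D _ _ r ι hι hpl a b hab hrab hf'
  have hφ : ∀ e, (r * hι.toPerm) e = r (ι e) := fun e => rfl
  have hne : ι a ≠ ι b := fun h => hab (hι.injective h)
  obtain ⟨s, hs1, hsa, hsb⟩ := exists_sep (r * hι.toPerm) hne hf'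
  have ha : (r * swap a b) a = r b := by rw [Perm.mul_apply, swap_apply_left]
  have hb : (r * swap a b) b = r a := by rw [Perm.mul_apply, swap_apply_right]
  have ho : ∀ e, e ≠ a → e ≠ b → (r * swap a b) e = r e := fun e h1 h2 => by
    rw [Perm.mul_apply, swap_apply_of_ne_of_ne h1 h2]
  have hs2 : ∀ e, s ((r * swap a b) e) = s (ι e) := by
    intro e
    rw [← hs1 (ι e)]
    congr 1
    by_cases h1 : e = a
    · rw [h1, ha, Perm.mul_apply, swap_apply_left, hφ, hι b]
    · by_cases h2 : e = b
      · rw [h2, hb, Perm.mul_apply, swap_apply_right, hφ, hι a]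
      · rw [ho e h1 h2, Perm.mul_apply, swap_apply_of_ne_of_ne
          (fun h => h1 (hι.injective h)) (fun h => h2 (hι.injective h)),
          hφ, hι e]
  obtain ⟨g, hg1, hga, hgb⟩ := exists_sep r hab hrab
  have hsra : s (r a) = 0 := by rw [← hb, hs2, hsb]
  have hsrb : s (r b) = 1 := by rw [← ha, hs2, hsa]
  have hgra : g (r a) = 0 := by rw [← hb, hg1, hgb]
  have hgrb : g (r b) = 1 := by rw [← ha, hg1, hga]
  obtain ⟨y, hy1, hy2⟩ := hpl (fun e => s e + s (ι e)) (fun e => s e + g e)
    (fun e => by
      show s (ι e) + s (ι (ι e)) = s e + s (ι e)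
      rw [hι, add_comm])
    (fun e => by
      show s (r e) + g (r e) = s e + g e + (s e + s (ι e))
      have h0 : s e + g e + (s e + s (ι e)) = s (ι e) + g e := by
        generalize s e = p
        generalize g e = q
        generalize s (ι e) = w
        revert p q w
        decide
      rw [h0]
      by_cases h1 : e = a
      · rw [h1, hsra, hgra, hsa, hga]
        decide
      · by_cases h2 : e = b
        · rw [h2, hsrb, hgrb, hsb, hgb]
          decide
        · rw [← ho e h1 h2, hs2, hg1])
  have hcι : ∀ e, y (ι e) + s (ι e) = y e + s e := by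
    intro e
    rw [hy2]
    generalize s e = p
    generalize y e = q
    generalize s (ι e) = w
    revert p q w
    decide
  have hcr : ∀ e, e ≠ a → e ≠ b → y (r e) + s (r e) = y e + s e := by
    intro e h1 h2
    rw [hy1, ← ho e h1 h2, hs2]
    generalize s e = p
    generalize y e = q
    generalize s (ι e) = w
    revert p q w
    decide
  have hca : y (r a) + s (r a) = (y a + s a) + 1 := by
    rw [hy1, hsra]
    have h2 : s (ι a) = 1 := hsa
    show y a + (s a + s (ι a)) + 0 = (y a + s a) + 1
    rw [h2]
    ring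
  have hcb : y (r b) + s (r b) = (y b + s b) + 1 := by
    rw [hy1, hsrb]
    show y b + (s b + s (ι b)) + 1 = (y b + s b) + 1
    have h2 : s (ι b) = 0 := hsb
    rw [h2]
    ring
  have hab' : y a + s a = (y b + s b) + 1 :=
    hTwo D r (fun e => y e + s e) a b hab hrab (fun e _ h1 h2 => hcr e h1 h2) hca hcb
  refine ⟨fun e => y e + s e, hcι, ?_, ?_⟩
  · intro e
    show y ((r * swap a b) e) + s ((r * swap a b) e) = y e + s e
    by_cases h1 : e = a
    · rw [h1, ha, hcb, ← hab']
    · by_cases h2 : e = b
      · rw [h2, hb, hca, hab']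
        generalize y b + s b = q
        revert q
        decide
      · rw [ho e h1 h2, hcr e h1 h2]
  · show y a + s a ≠ y b + s b
    rw [hab']
    generalize y b + s b = q
    revert q
    decide

end Pool.Agent.Helper40.OF4.SP
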